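import Pool.Agent.Helper23.GK.StG
import Pool.Agent.Helper48.BK.M_Par

/-!
# Project GK, module CNV: convolution bound by Parseval
-/

set_option autoImplicit false

namespace Pool.Agent.Helper29.GK

open Finset
open Pool.Agent.Helper48.BK (ex th Sx)
open Pool.Agent.Helper48.BK
open Pool.Agent.Helper23.GK

/-- Parseval over the residues modulo `M`. -/
private lemma parseval (c : ℕ → ℝ) (M : ℕ) (hM : 1 ≤ M) :
    ∑ j ∈ range M, ‖∑ N ∈ range M, (c N : ℂ) * ex (N * ((j : ℝ) / M))‖ ^ 2 =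
      M * ∑ N ∈ range M, c N ^ 2 := by
  have key : ∀ j ∈ range M,
      ((‖∑ N ∈ range M, (c N : ℂ) * ex (N * ((j : ℝ) / M))‖ ^ 2 : ℝ) : ℂ) =
      ∑ N ∈ range M, ∑ K ∈ range M, (c N : ℂ) * c K *
        ex ((((N : ℤ) - K : ℤ) : ℝ) * ((j : ℝ) / M)) := by
    intro j _
    rw [Complex.ofReal_pow, ← Complex.mul_conj', map_sum, Finset.sum_mul_sum]
    refine Finset.sum_congr rfl fun N _ => Finset.sum_congr rfl fun K _ => ?_
    rw [map_mul, Complex.conj_ofReal, ex_conj_Par]
    rw [show (((N : ℤ) - K : ℤ) : ℝ) * ((j : ℝ) / M) =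
      (N : ℝ) * ((j : ℝ) / M) + -((K : ℝ) * ((j : ℝ) / M)) by push_cast; ring, ex_add_Par]
    ring
  have h : ((∑ j ∈ range M, ‖∑ N ∈ range M, (c N : ℂ) * ex (N * ((j : ℝ) / M))‖ ^ 2 : ℝ) : ℂ) =
      ((M * ∑ N ∈ range M, c N ^ 2 : ℝ) : ℂ) := by
    rw [Complex.ofReal_sum, Finset.sum_congr rfl key, Finset.sum_comm]
    push_cast
    rw [Finset.mul_sum]
    refine Finset.sum_congr rfl fun N hN => ?_
    rw [Finset.sum_comm]
    rw [Finset.sum_eq_single N]
    · rw [← Finset.mul_sum]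
      have := orth_Par M hM 0 (by simpa using (by exact_mod_cast hM : (0 : ℤ) < M))
      simp only [if_true, Int.cast_zero] at this
      simp only [sub_self]
      rw [this]
      ring
    · intro K hK hKN
      have h0 := orth_Par M hM ((N : ℤ) - K) (by
        rw [Finset.mem_range] at hN hK
        rw [abs_lt]
        constructor <;> omega)
      rw [if_neg (by omega)] at h0
      push_cast at h0
      rw [← Finset.mul_sum, h0, mul_zero]
    · intro h
      exact absurd hN h
  exact_mod_cast h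

theorem hCNV : StCnv := by
  intro f g X Y D hD
  set M := X + Y + 1 with hMdef
  have hM : 1 ≤ M := by omega
  have hM0 : (0 : ℝ) < M := by exact_mod_cast hM
  set c : ℕ → ℝ := fun N =>
    ∑ p ∈ (Ioc 0 Y ×ˢ Ioc 0 X).filter (fun p => p.1 + p.2 = N), f p.1 * g p.2 with hc
  have hprod : ∀ α : ℝ, Sx f Y α * Sx g X α = ∑ N ∈ range M, (c N : ℂ) * ex (N * α) := by
    intro α
    unfold Sx
    rw [Finset.sum_mul_sum, ← Finset.sum_product']
    rw [← Finset.sum_fiberwise_of_maps_to (s := Ioc 0 Y ×ˢ Ioc 0 X) (t := range M)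
      (g := fun p : ℕ × ℕ => p.1 + p.2)]
    · refine Finset.sum_congr rfl fun N _ => ?_
      rw [hc]
      push_cast
      rw [Finset.sum_mul]
      refine Finset.sum_congr rfl fun p hp => ?_
      rw [Finset.mem_filter] at hp
      rw [show (N : ℝ) * α = (p.1 : ℝ) * α + (p.2 : ℝ) * α by rw [← hp.2]; push_cast; ring,
        ex_add_Par]
      ring
    · intro p hp
      rw [Finset.mem_product, Finset.mem_Ioc, Finset.mem_Ioc] at hp
      rw [Finset.mem_range]
      omega
  have hG : ∀ α : ℝ, Sx g X α = ∑ N ∈ range M, ((if 0 < N ∧ N ≤ X then g N else 0 : ℝ) : ℂ) *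
      ex (N * α) := by
    intro α
    unfold Sx
    have : Ioc 0 X = (range M).filter (fun N => 0 < N ∧ N ≤ X) := by
      ext N
      simp only [Finset.mem_Ioc, Finset.mem_filter, Finset.mem_range]
      omega
    rw [this, Finset.sum_filter]
    refine Finset.sum_congr rfl fun N _ => ?_
    split_ifs <;> simp
  have h1 := parseval c M hM
  have h2 := parseval (fun N => if 0 < N ∧ N ≤ X then g N else 0) M hM
  have h3 : ∑ N ∈ range M, (if 0 < N ∧ N ≤ X then g N else 0 : ℝ) ^ 2 = ∑ n ∈ Ioc 0 X, g n ^ 2 := by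
    have : Ioc 0 X = (range M).filter (fun N => 0 < N ∧ N ≤ X) := by
      ext N
      simp only [Finset.mem_Ioc, Finset.mem_filter, Finset.mem_range]
      omega
    rw [this, Finset.sum_filter]
    refine Finset.sum_congr rfl fun N _ => ?_
    split_ifs <;> simp
  have h4 : M * ∑ N ∈ range M, c N ^ 2 ≤ D ^ 2 * (M * ∑ n ∈ Ioc 0 X, g n ^ 2) := by
    rw [← h1, ← h3, ← h2, Finset.mul_sum]
    refine Finset.sum_le_sum fun j _ => ?_
    rw [← hprod, ← hG, norm_mul, mul_pow]
    have := hD ((j : ℝ) / M)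
    gcongr
  have h5 : ∑ N ∈ range M, c N ^ 2 ≤ D ^ 2 * ∑ n ∈ Ioc 0 X, g n ^ 2 := by
    have : (M : ℝ) * ∑ N ∈ range M, c N ^ 2 ≤ M * (D ^ 2 * ∑ n ∈ Ioc 0 X, g n ^ 2) := by
      calc _ ≤ _ := h4
        _ = _ := by ring
    exact le_of_mul_le_mul_left this hM0
  refine le_trans ?_ h5
  have h6 : ∀ N ∈ Ioc 0 X, (∑ n ∈ (Ioc 0 Y).filter (fun n => n < N), f n * g (N - n)) = c N := by
    intro N hN
    rw [Finset.mem_Ioc] at hN
    rw [hc]
    refine Finset.sum_bij' (fun n _ => (n, N - n)) (fun p _ => p.1) ?_ ?_ ?_ ?_ ?_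
    · intro n hn
      rw [Finset.mem_filter, Finset.mem_Ioc] at hn
      rw [Finset.mem_filter, Finset.mem_product, Finset.mem_Ioc, Finset.mem_Ioc]
      dsimp only
      omega
    · intro p hp
      rw [Finset.mem_filter, Finset.mem_product, Finset.mem_Ioc, Finset.mem_Ioc] at hp
      rw [Finset.mem_filter, Finset.mem_Ioc]
      omega
    · intro n _
      rfl
    · intro p hp
      rw [Finset.mem_filter, Finset.mem_product, Finset.mem_Ioc, Finset.mem_Ioc] at hp
      ext
      · rfl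
      · dsimp only
        omega
    · intro n _
      rfl
  rw [Finset.sum_congr rfl fun N hN => by rw [h6 N hN]]
  apply Finset.sum_le_sum_of_subset_of_nonneg
  · intro N hN
    rw [Finset.mem_Ioc] at hN
    rw [Finset.mem_range]
    omega
  · intro _ _ _
    positivity

end Pool.Agent.Helper29.GK
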