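import Pool.Agent.Helper23.GK.StG
import Pool.Agent.Helper48.BK.M_Par

/-!
# Project GK, module RAM: Ramanujan sums
-/

set_option autoImplicit false

namespace Pool.Agent.Helper29.GK

open Finset ArithmeticFunction
open Pool.Agent.Helper48.BK (ex th Sx)
open Pool.Agent.Helper48.BK
open Pool.Agent.Helper23.GK

lemma ex_eq_one_iff_RAM (t : ℝ) : ex t = 1 ↔ ∃ k : ℤ, t = k := by
  constructor
  · intro he
    unfold ex at he
    rw [Complex.exp_eq_one_iff] at he
    obtain ⟨n, hn⟩ := he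
    refine ⟨n, ?_⟩
    have h2 : (2 * Real.pi * Complex.I : ℂ) ≠ 0 := Complex.two_pi_I_ne_zero
    have h1 : ((t : ℝ) : ℂ) = ((n : ℝ) : ℂ) := by
      apply mul_left_cancel₀ h2
      rw [show (2 * (Real.pi : ℂ) * Complex.I) * (t : ℂ) =
        2 * Real.pi * (t : ℂ) * Complex.I by ring, hn]
      push_cast
      ring
    exact_mod_cast h1
  · rintro ⟨k, rfl⟩
    exact ex_int_Par k

lemma norm_ex_RAM (t : ℝ) : ‖ex t‖ = 1 := by
  unfold ex
  rw [show (2 * Real.pi * t * Complex.I : ℂ) = ((2 * Real.pi * t : ℝ) : ℂ) * Complex.I by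
    push_cast; ring]
  exact Complex.norm_exp_ofReal_mul_I _

/-- the sum over all residues -/
lemma full_RAM (q : ℕ) (n : ℤ) (hq : 0 < q) :
    ∑ b ∈ range q, ex ((b : ℝ) * n / q) = if (q : ℤ) ∣ n then (q : ℂ) else 0 := by
  have hq0 : (q : ℝ) ≠ 0 := by exact_mod_cast hq.ne'
  split_ifs with h
  · obtain ⟨k, rfl⟩ := h
    rw [Finset.sum_congr rfl (g := fun _ => (1 : ℂ))]
    · simp
    · intro b _
      rw [ex_eq_one_iff_RAM]
      refine ⟨b * k, ?_⟩
      push_cast
      field_simp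
  · have hne : ex ((n : ℝ) / q) ≠ 1 := by
      intro he
      rw [ex_eq_one_iff_RAM] at he
      obtain ⟨k, hk⟩ := he
      apply h
      refine ⟨k, ?_⟩
      rw [div_eq_iff hq0] at hk
      have : (n : ℝ) = ((q * k : ℤ) : ℝ) := by rw [hk]; push_cast; ring
      exact_mod_cast this
    have h1 : ∀ b ∈ range q, ex ((b : ℝ) * n / q) = ex ((n : ℝ) / q) ^ b := by
      intro b _
      rw [ex_pow_Par]
      congr 1
      ring
    rw [Finset.sum_congr rfl h1, geom_sum_eq hne, ex_pow_Par]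
    have h2 : ex ((q : ℝ) * ((n : ℝ) / q)) = 1 := by
      have : (q : ℝ) * ((n : ℝ) / q) = n := by field_simp
      rw [this]
      exact ex_int_Par n
    rw [h2]
    simp

/-- grouping the residues by their denominators -/
lemma group_RAM (q : ℕ) (n : ℤ) (hq : 0 < q) :
    ∑ d ∈ q.divisors, ∑ b ∈ (range d).filter (fun b => Nat.Coprime b d), ex ((b : ℝ) * n / d) =
      ∑ b ∈ range q, ex ((b : ℝ) * n / q) := by
  rw [← Finset.sum_fiberwise_of_maps_to (s := range q) (t := q.divisors)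
    (g := fun b => q / Nat.gcd b q)]
  · refine Finset.sum_congr rfl fun d hd => ?_
    rw [Nat.mem_divisors] at hd
    obtain ⟨⟨e, rfl⟩, _⟩ := hd
    have hd0 : 0 < d := Nat.pos_of_mul_pos_right hq |> fun h => by
      rcases Nat.eq_zero_or_pos d with h' | h'
      · subst h'; simp at hq
      · exact h'
    have he0 : 0 < e := by
      rcases Nat.eq_zero_or_pos e with h' | h'
      · subst h'; simp at hq
      · exact h'
    refine Finset.sum_bij' (fun c _ => c * e) (fun b _ => b / e) ?_ ?_ ?_ ?_ ?_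
    · intro c hc
      rw [Finset.mem_filter, Finset.mem_range] at hc
      rw [Finset.mem_filter, Finset.mem_range]
      refine ⟨Nat.mul_lt_mul_of_pos_right hc.1 he0, ?_⟩
      rw [Nat.gcd_mul_right, hc.2, one_mul, Nat.mul_div_cancel _ he0]
    · intro b hb
      rw [Finset.mem_filter, Finset.mem_range] at hb
      rw [Finset.mem_filter, Finset.mem_range]
      have hg : Nat.gcd b (d * e) = e := by
        have h1 := Nat.div_mul_cancel (Nat.gcd_dvd_right b (d * e))
        rw [hb.2] at h1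
        exact Nat.eq_of_mul_eq_mul_left hd0 h1
      have heb : e ∣ b := by
        have := Nat.gcd_dvd_left b (d * e)
        rwa [hg] at this
      obtain ⟨c, rfl⟩ := heb
      rw [Nat.mul_div_cancel_left _ he0]
      refine ⟨?_, ?_⟩
      · have := hb.1
        rw [mul_comm d e] at this
        exact Nat.lt_of_mul_lt_mul_left this
      · rw [mul_comm e c, Nat.gcd_mul_right] at hg
        exact Nat.eq_of_mul_eq_mul_right he0 (by rw [hg, one_mul])
    · intro c _
      exact Nat.mul_div_cancel _ he0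
    · intro b hb
      rw [Finset.mem_filter, Finset.mem_range] at hb
      have hg : Nat.gcd b (d * e) = e := by
        have h1 := Nat.div_mul_cancel (Nat.gcd_dvd_right b (d * e))
        rw [hb.2] at h1
        exact Nat.eq_of_mul_eq_mul_left hd0 h1
      have heb : e ∣ b := by
        have := Nat.gcd_dvd_left b (d * e)
        rwa [hg] at this
      exact Nat.div_mul_cancel heb
    · intro c _
      congr 1
      have h1 : (d : ℝ) ≠ 0 := by exact_mod_cast hd0.ne'
      have h2 : (e : ℝ) ≠ 0 := by exact_mod_cast he0.ne'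
      push_cast
      field_simp
  · intro b _
    rw [Nat.mem_divisors]
    exact ⟨Nat.div_dvd_of_dvd (Nat.gcd_dvd_right _ _), hq.ne'⟩

/-- (a) -/
lemma cR_ex_RAM (q : ℕ) (n : ℤ) (hq : 1 ≤ q) : ((cR q n : ℤ) : ℂ) =
    ∑ b ∈ (range q).filter (fun b => Nat.Coprime b q), ex ((b : ℝ) * n / q) := by
  have h := (sum_eq_iff_sum_mul_moebius_eq (R := ℂ)
    (f := fun d => ∑ b ∈ (range d).filter (fun b => Nat.Coprime b d), ex ((b : ℝ) * n / d))
    (g := fun d => if (d : ℤ) ∣ n then (d : ℂ) else 0)).1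
    (fun d hd => by rw [group_RAM d n hd, full_RAM d n hd]) q hq
  rw [← h]
  rw [Nat.sum_divisorsAntidiagonal' (f := fun x y => ((moebius x : ℤ) : ℂ) *
    (if (y : ℤ) ∣ n then (y : ℂ) else 0))]
  unfold cR
  push_cast
  rw [Finset.sum_filter]
  refine Finset.sum_congr rfl fun d _ => ?_
  split_ifs
  · ring
  · simp

/-- (b) -/
lemma abs_cR_RAM (q : ℕ) (n : ℤ) (hq : 1 ≤ q) : |cR q n| ≤ (Nat.totient q : ℤ) := by
  have h1 : ‖((cR q n : ℤ) : ℂ)‖ ≤ (Nat.totient q : ℝ) := by
    rw [cR_ex_RAM q n hq]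
    refine (norm_sum_le _ _).trans ?_
    rw [Finset.sum_congr rfl fun b _ => norm_ex_RAM _]
    rw [Finset.sum_const, nsmul_eq_mul, mul_one]
    rw [Nat.totient_eq_card_coprime]
    apply le_of_eq
    congr 2
    ext b
    simp only [Finset.mem_filter, Nat.coprime_comm]
  rw [Complex.norm_intCast] at h1
  exact_mod_cast h1

/-- the value at an integer coprime to `q` -/
lemma cR_coprime_RAM (q : ℕ) (n : ℤ) (hq : 1 ≤ q) (h : IsCoprime n (q : ℤ)) :
    cR q n = moebius q := by
  unfold cR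
  have : q.divisors.filter (fun d : ℕ => (d : ℤ) ∣ n) = {1} := by
    ext d
    rw [Finset.mem_filter, Nat.mem_divisors, Finset.mem_singleton]
    constructor
    · rintro ⟨⟨h1, _⟩, h2⟩
      have h3 : (d : ℤ) ∣ q := by exact_mod_cast h1
      have h4 := h.isUnit_of_dvd' h2 h3
      rw [Int.isUnit_iff] at h4
      omega
    · rintro rfl
      exact ⟨⟨one_dvd _, by omega⟩, by simp⟩
  rw [this, Finset.sum_singleton]
  simp

/-- (c) -/
lemma cR_sum_RAM (q : ℕ) (N : ℤ) (hq : 1 ≤ q) :
    ∑ u ∈ (range q).filter (fun u => Nat.Coprime u q), cR q (N - u) = moebius q * cR q N := by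
  have h : ((∑ u ∈ (range q).filter (fun u => Nat.Coprime u q), cR q (N - u) : ℤ) : ℂ) =
      ((moebius q * cR q N : ℤ) : ℂ) := by
    rw [Int.cast_sum, Finset.sum_congr rfl fun (u : ℕ) _ => cR_ex_RAM q (N - (u : ℤ)) hq,
      Finset.sum_comm,
      Int.cast_mul, cR_ex_RAM q N hq, Finset.mul_sum]
    refine Finset.sum_congr rfl fun b hb => ?_
    rw [Finset.mem_filter, Finset.mem_range] at hb
    have hb' : cR q (-(b : ℤ)) = moebius q := by
      apply cR_coprime_RAM q _ hq
      have := Nat.isCoprime_iff_coprime.2 hb.2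
      exact this.neg_left
    have h2 := cR_ex_RAM q (-(b : ℤ)) hq
    rw [hb'] at h2
    rw [h2, Finset.sum_mul]
    refine Finset.sum_congr rfl fun u _ => ?_
    rw [← ex_add_Par]
    congr 1
    push_cast
    ring
  exact_mod_cast h

/-- (e) -/
lemma cR_avg_RAM (q Y : ℕ) :
    ∑ N ∈ Icc 1 Y, (|cR q N| : ℤ) ≤ (Y : ℤ) * (q.divisors.card : ℤ) := by
  have h1 : ∀ N ∈ Icc 1 Y, |cR q (N : ℤ)| ≤ ∑ d ∈ q.divisors, if d ∣ N then (d : ℤ) else 0 := by
    intro N _
    unfold cR
    refine (Finset.abs_sum_le_sum_abs _ _).trans ?_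
    rw [Finset.sum_filter]
    refine Finset.sum_le_sum fun d _ => ?_
    by_cases hd : d ∣ N
    · rw [if_pos hd, if_pos (by exact_mod_cast hd), abs_mul, Nat.abs_cast]
      have := abs_moebius_le_one (n := q / d)
      nlinarith
    · rw [if_neg hd, if_neg (by exact_mod_cast hd)]
  refine (Finset.sum_le_sum h1).trans ?_
  rw [Finset.sum_comm]
  have h2 : ∀ d ∈ q.divisors, ∑ N ∈ Icc 1 Y, (if d ∣ N then (d : ℤ) else 0) ≤ Y := by
    intro d _
    rw [← Finset.sum_filter, Finset.sum_const, nsmul_eq_mul]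
    have h3 : (Icc 1 Y).filter (fun N => d ∣ N) = (Ioc 0 Y).filter (fun N => d ∣ N) := by
      ext N
      simp only [Finset.mem_filter, Finset.mem_Icc, Finset.mem_Ioc]
      omega
    rw [h3, Nat.Ioc_filter_dvd_card_eq_div]
    exact_mod_cast Nat.div_mul_le_self Y d
  refine (Finset.sum_le_sum h2).trans ?_
  rw [Finset.sum_const, nsmul_eq_mul, mul_comm]

/-- the Ramanujan sum as an arithmetic function of `q` -/
noncomputable def cRf (n : ℤ) : ArithmeticFunction ℤ where
  toFun q := cR q n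
  map_zero' := by simp [cR]

/-- divisors of `n`, weighted -/
noncomputable def hRf (n : ℤ) : ArithmeticFunction ℤ where
  toFun d := if d ≠ 0 ∧ (d : ℤ) ∣ n then (d : ℤ) else 0
  map_zero' := by simp

lemma hRf_mult (n : ℤ) : (hRf n).IsMultiplicative := by
  rw [IsMultiplicative.iff_ne_zero]
  constructor
  · simp [hRf]
  · intro a b ha hb hab
    show (if a * b ≠ 0 ∧ ((a * b : ℕ) : ℤ) ∣ n then ((a * b : ℕ) : ℤ) else 0) =
      (if a ≠ 0 ∧ (a : ℤ) ∣ n then (a : ℤ) else 0) * (if b ≠ 0 ∧ (b : ℤ) ∣ n then (b : ℤ) else 0)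
    have h1 : ((a * b : ℕ) : ℤ) ∣ n ↔ (a : ℤ) ∣ n ∧ (b : ℤ) ∣ n := by
      push_cast
      constructor
      · intro h
        exact ⟨(dvd_mul_right _ _).trans h, (dvd_mul_left _ _).trans h⟩
      · rintro ⟨h2, h3⟩
        exact (Nat.isCoprime_iff_coprime.2 hab).mul_dvd h2 h3
    by_cases h2 : (a : ℤ) ∣ n
    · by_cases h3 : (b : ℤ) ∣ n
      · rw [if_pos ⟨mul_ne_zero ha hb, h1.2 ⟨h2, h3⟩⟩, if_pos ⟨ha, h2⟩, if_pos ⟨hb, h3⟩]
        push_cast
        ring
      · rw [if_neg (fun h => h3 (h1.1 h.2).2), if_neg (c := b ≠ 0 ∧ (b : ℤ) ∣ n)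
          (fun h => h3 h.2), mul_zero]
    · rw [if_neg (fun h => h2 (h1.1 h.2).1), if_neg (c := a ≠ 0 ∧ (a : ℤ) ∣ n)
          (fun h => h2 h.2), zero_mul]

lemma cRf_eq (n : ℤ) : cRf n = moebius * hRf n := by
  ext q
  rw [ArithmeticFunction.mul_apply]
  rw [Nat.sum_divisorsAntidiagonal' (f := fun x y => moebius x * hRf n y)]
  show cR q n = _
  unfold cR
  rw [Finset.sum_filter]
  refine Finset.sum_congr rfl fun d hd => ?_
  have hd0 : d ≠ 0 := (Nat.pos_of_mem_divisors hd).ne'
  show _ = moebius (q / d) * (if d ≠ 0 ∧ (d : ℤ) ∣ n then (d : ℤ) else 0)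
  by_cases h : (d : ℤ) ∣ n
  · rw [if_pos h, if_pos ⟨hd0, h⟩]
    ring
  · rw [if_neg h, if_neg (fun h' => h h'.2), mul_zero]

lemma cRf_mult (n : ℤ) : (cRf n).IsMultiplicative := by
  rw [cRf_eq]
  exact isMultiplicative_moebius.mul (hRf_mult n)

lemma cR_one (n : ℤ) : cR 1 n = 1 := (cRf_mult n).1

lemma cR_prime (p : ℕ) (hp : p.Prime) (n : ℤ) :
    cR p n = if (p : ℤ) ∣ n then (p : ℤ) - 1 else -1 := by
  unfold cR
  rw [Finset.sum_filter, hp.divisors, Finset.sum_pair hp.one_lt.ne]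
  rw [Nat.div_self hp.pos, Nat.div_one, moebius_apply_prime hp]
  simp only [Nat.cast_one, isUnit_one, IsUnit.dvd, if_true, moebius_apply_one]
  split_ifs <;> ring

/-- `1 / φ` -/
noncomputable def iphi : ArithmeticFunction ℝ where
  toFun q := 1 / (Nat.totient q : ℝ)
  map_zero' := by simp

lemma iphi_mult : iphi.IsMultiplicative := by
  constructor
  · show 1 / (Nat.totient 1 : ℝ) = 1
    simp
  · intro a b hab
    show 1 / (Nat.totient (a * b) : ℝ) = 1 / (Nat.totient a : ℝ) * (1 / (Nat.totient b : ℝ))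
    rw [Nat.totient_mul hab]
    push_cast
    rw [div_mul_div_comm, one_mul]

/-- `μ(r) c_r(n) / φ(r)` -/
noncomputable def GRf (n : ℤ) : ArithmeticFunction ℝ :=
  ((moebius : ArithmeticFunction ℤ) : ArithmeticFunction ℝ).pmul
    (iphi.pmul ((cRf n : ArithmeticFunction ℤ) : ArithmeticFunction ℝ))

lemma GRf_mult (n : ℤ) : (GRf n).IsMultiplicative :=
  isMultiplicative_moebius.intCast.pmul (iphi_mult.pmul (cRf_mult n).intCast)

lemma GRf_apply (n : ℤ) (r : ℕ) : GRf n r = (moebius r : ℝ) / (Nat.totient r : ℝ) * (cR r n : ℝ) := by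
  unfold GRf
  rw [pmul_apply, pmul_apply, intCoe_apply, intCoe_apply]
  show ((moebius r : ℤ) : ℝ) * (1 / (Nat.totient r : ℝ) * ((cR r n : ℤ) : ℝ)) = _
  ring

/-- the right side of (d) -/
noncomputable def RRf (u : ℕ) : ArithmeticFunction ℝ where
  toFun q := if q ≠ 0 ∧ Nat.Coprime u q then (q : ℝ) / Nat.totient q else 0
  map_zero' := by simp

lemma RRf_mult (u : ℕ) : (RRf u).IsMultiplicative := by
  rw [IsMultiplicative.iff_ne_zero]
  constructor
  · show (if (1 : ℕ) ≠ 0 ∧ Nat.Coprime u 1 then ((1 : ℕ) : ℝ) / Nat.totient 1 else 0) = 1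
    simp
  · intro a b ha hb hab
    show (if a * b ≠ 0 ∧ Nat.Coprime u (a * b) then ((a * b : ℕ) : ℝ) / Nat.totient (a * b)
      else 0) = (if a ≠ 0 ∧ Nat.Coprime u a then (a : ℝ) / Nat.totient a else 0) *
        (if b ≠ 0 ∧ Nat.Coprime u b then (b : ℝ) / Nat.totient b else 0)
    by_cases h2 : Nat.Coprime u a
    · by_cases h3 : Nat.Coprime u b
      · rw [if_pos ⟨mul_ne_zero ha hb, Nat.Coprime.mul_right h2 h3⟩, if_pos ⟨ha, h2⟩,
          if_pos ⟨hb, h3⟩, Nat.totient_mul hab]
        push_cast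
        rw [div_mul_div_comm]
      · rw [if_neg (fun h => h3 (Nat.Coprime.coprime_mul_left_right h.2)),
          if_neg (c := b ≠ 0 ∧ Nat.Coprime u b) (fun h => h3 h.2), mul_zero]
    · rw [if_neg (fun h => h2 (Nat.Coprime.coprime_mul_right_right h.2)),
        if_neg (c := a ≠ 0 ∧ Nat.Coprime u a) (fun h => h2 h.2), zero_mul]

/-- (d) -/
lemma cR_div_RAM (q u : ℕ) (hq : 1 ≤ q) :
    ∑ r ∈ q.divisors, (moebius r : ℝ) / (Nat.totient r : ℝ) * (cR r u : ℝ) =
    if Nat.Coprime u q then (q : ℝ) / Nat.totient q else 0 := by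
  have key : GRf u * (zeta : ArithmeticFunction ℝ) = RRf u := by
    rw [IsMultiplicative.eq_iff_eq_on_prime_powers _
      ((GRf_mult u).mul isMultiplicative_zeta.natCast) _ (RRf_mult u)]
    intro p i hp
    rcases Nat.eq_zero_or_pos i with hi | hi
    · subst hi
      rw [pow_zero, ((GRf_mult u).mul isMultiplicative_zeta.natCast).1, (RRf_mult u).1]
    · rw [coe_mul_zeta_apply, Nat.sum_divisors_prime_pow hp]
      obtain ⟨j, rfl⟩ : ∃ j, i = j + 1 := ⟨i - 1, by omega⟩
      rw [Finset.sum_range_succ', Finset.sum_range_succ']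
      have hp1 : (1 : ℝ) < p := by exact_mod_cast hp.one_lt
      have hz : ∑ k ∈ range j, GRf (u : ℤ) (p ^ (k + 1 + 1)) = 0 := by
        apply Finset.sum_eq_zero
        intro k _
        rw [GRf_apply, moebius_apply_prime_pow hp (by omega), if_neg (by omega)]
        simp
      rw [hz, zero_add, zero_add, pow_zero, pow_one, (GRf_mult u).1, GRf_apply,
        moebius_apply_prime hp, cR_prime p hp, Nat.totient_prime hp]
      show _ = if p ^ (j + 1) ≠ 0 ∧ Nat.Coprime u (p ^ (j + 1)) then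
        ((p ^ (j + 1) : ℕ) : ℝ) / Nat.totient (p ^ (j + 1)) else 0
      have hcast : ((p - 1 : ℕ) : ℝ) = (p : ℝ) - 1 := by
        rw [Nat.cast_sub hp.one_le]; simp
      have hne : (p : ℝ) - 1 ≠ 0 := by linarith
      by_cases hpu : p ∣ u
      · rw [if_pos (by exact_mod_cast hpu), if_neg]
        · rw [hcast]
          push_cast
          field_simp
          ring
        · rintro ⟨_, h⟩
          have := (Nat.coprime_pow_right_iff (by omega) _ _).1 h
          have h2 := Nat.Coprime.symm this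
          rw [hp.coprime_iff_not_dvd] at h2
          exact h2 hpu
      · rw [if_neg (by exact_mod_cast hpu), if_pos]
        · rw [Nat.totient_prime_pow_succ hp]
          push_cast
          rw [hcast]
          have : (p : ℝ) ^ j ≠ 0 := by positivity
          field_simp
          ring
        · refine ⟨(pow_pos hp.pos _).ne', ?_⟩
          apply Nat.Coprime.pow_right
          exact ((hp.coprime_iff_not_dvd).2 hpu).symm
  have h : (GRf u * (zeta : ArithmeticFunction ℝ)) q = RRf u q := by rw [key]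
  rw [coe_mul_zeta_apply] at h
  rw [Finset.sum_congr rfl fun r _ => (GRf_apply u r).symm, h]
  show (if q ≠ 0 ∧ Nat.Coprime u q then (q : ℝ) / Nat.totient q else 0) = _
  by_cases h2 : Nat.Coprime u q
  · rw [if_pos ⟨by omega, h2⟩, if_pos h2]
  · rw [if_neg (fun h => h2 h.2), if_neg h2]

theorem hRAM : StRam :=
  ⟨fun q n hq => cR_ex_RAM q n hq, fun q n hq => abs_cR_RAM q n hq,
    fun q N hq => cR_sum_RAM q N hq, fun q u hq => cR_div_RAM q u hq,
    fun q Y _ => cR_avg_RAM q Y⟩

end Pool.Agent.Helper29.GK
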