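import Pool.Agent.Helper23.GK.StG

/-!
# Project GK, module SSA: bounds for the singular series
-/

set_option autoImplicit false

namespace Pool.Agent.Helper29.GK

open Finset ArithmeticFunction
open Pool.Agent.Helper23.GK

private lemma low_fin (t : Finset ℕ) : ∀ M : ℕ, 1 ≤ M → (∀ x ∈ t, 2 ≤ x ∧ x ≤ M) →
    ((M : ℝ) + 1) / (2 * M) ≤ ∏ m ∈ t, (1 - 1 / (m : ℝ) ^ 2) := by
  induction t using Finset.induction_on_max with
  | empty =>
    intro M hM _
    have hM' : (1 : ℝ) ≤ M := by exact_mod_cast hM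
    rw [Finset.prod_empty, div_le_one (by positivity)]
    linarith
  | insert a s hs ih =>
    intro M hM h
    have ha := h a (Finset.mem_insert_self _ _)
    obtain ⟨b, rfl⟩ : ∃ b, a = b + 1 := ⟨a - 1, by omega⟩
    have h1 := ih b (by omega) (fun x hx => ⟨(h x (Finset.mem_insert_of_mem hx)).1, by
      have := hs x hx
      omega⟩)
    rw [Finset.prod_insert (fun hmem => lt_irrefl _ (hs _ hmem))]
    have hb : (1 : ℝ) ≤ b := by
      have : 1 ≤ b := by omega
      exact_mod_cast this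
    have hM2 : ((b : ℝ) + 1) ≤ M := by exact_mod_cast ha.2
    have hM0 : (0 : ℝ) < M := by linarith
    push_cast
    have h2 : (0 : ℝ) ≤ 1 - 1 / ((b : ℝ) + 1) ^ 2 := by
      rw [sub_nonneg, div_le_one (by positivity)]
      nlinarith
    calc ((M : ℝ) + 1) / (2 * M) ≤ ((b : ℝ) + 2) / (2 * (b + 1)) := by
          rw [div_le_div_iff₀ (by positivity) (by positivity)]
          nlinarith
      _ = (1 - 1 / ((b : ℝ) + 1) ^ 2) * (((b : ℝ) + 1) / (2 * b)) := by
          have : (b : ℝ) ≠ 0 := by positivity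
          field_simp
          ring
      _ ≤ _ := mul_le_mul_of_nonneg_left h1 h2

private lemma fin_bd (s : Finset {p : ℕ // p.Prime ∧ 2 < p}) :
    1 / 2 ≤ ∏ p ∈ s, (1 - 1 / ((p : ℝ) - 1) ^ 2) ∧ ∏ p ∈ s, (1 - 1 / ((p : ℝ) - 1) ^ 2) ≤ 1 := by
  constructor
  · have hinj : Set.InjOn (fun p : {p : ℕ // p.Prime ∧ 2 < p} => (p : ℕ) - 1) s := by
      intro p _ q _ h
      have h1 := p.2.2
      have h2 := q.2.2
      apply Subtype.ext
      simp only at h
      omega
    have h1 : ∏ p ∈ s, (1 - 1 / ((p : ℝ) - 1) ^ 2) =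
        ∏ m ∈ s.image (fun p : {p : ℕ // p.Prime ∧ 2 < p} => (p : ℕ) - 1),
          (1 - 1 / (m : ℝ) ^ 2) := by
      rw [Finset.prod_image hinj]
      refine Finset.prod_congr rfl fun p _ => ?_
      have h1 := p.2.2
      rw [Nat.cast_sub (by omega)]
      simp
    rw [h1]
    set t := s.image (fun p : {p : ℕ // p.Prime ∧ 2 < p} => (p : ℕ) - 1) with ht
    have hM : ∀ x ∈ t, 2 ≤ x ∧ x ≤ t.sup id + 1 := by
      intro x hx
      constructor
      · rw [ht, Finset.mem_image] at hx
        obtain ⟨p, _, rfl⟩ := hx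
        have h1 := p.2.2
        omega
      · have := Finset.le_sup (f := id) hx
        simp only [id] at this
        omega
    refine le_trans ?_ (low_fin t (t.sup id + 1) (by omega) hM)
    rw [div_le_div_iff₀ (by norm_num) (by positivity)]
    push_cast
    linarith
  · apply Finset.prod_le_one
    · intro p _
      have h1 : (3 : ℝ) ≤ (p : ℕ) := by exact_mod_cast p.2.2
      rw [sub_nonneg, div_le_one (by nlinarith)]
      nlinarith
    · intro p _
      have : (0 : ℝ) ≤ 1 / (((p : ℕ) : ℝ) - 1) ^ 2 := by positivity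
      linarith

private lemma tp_bd : 1 / 2 ≤ ∏' p : {p : ℕ // p.Prime ∧ 2 < p}, (1 - 1 / ((p : ℝ) - 1) ^ 2) ∧
    ∏' p : {p : ℕ // p.Prime ∧ 2 < p}, (1 - 1 / ((p : ℝ) - 1) ^ 2) ≤ 1 := by
  by_cases h : Multipliable fun p : {p : ℕ // p.Prime ∧ 2 < p} => (1 - 1 / ((p : ℝ) - 1) ^ 2)
  · have hP := h.hasProd
    exact ⟨ge_of_tendsto' hP fun s => (fin_bd s).1, le_of_tendsto' hP fun s => (fin_bd s).2⟩
  · rw [tprod_eq_one_of_not_multipliable h]
    norm_num

private lemma up_fin (s : Finset ℕ) : (∀ x ∈ s, 3 ≤ x ∧ Odd x) →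
    ∏ p ∈ s, (((p : ℝ) - 1) / ((p : ℝ) - 2)) ≤ s.card + 1 := by
  induction s using Finset.induction_on_max with
  | empty => intro _; simp
  | insert a s hs ih =>
    intro h
    have ha := h a (Finset.mem_insert_self _ _)
    have h1 := ih (fun x hx => h x (Finset.mem_insert_of_mem hx))
    have hnot : a ∉ s := fun hmem => lt_irrefl _ (hs _ hmem)
    have hcard : 2 * s.card + 3 ≤ a := by
      have h2 : (insert a s).card ≤ (Icc 1 ((a - 1) / 2)).card := by
        apply Finset.card_le_card_of_injOn (fun x => (x - 1) / 2)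
        · intro x hx
          have h3 := h x hx
          have h4 : x ≤ a := by
            rcases Finset.mem_insert.1 hx with rfl | h5
            · exact le_rfl
            · exact (hs x h5).le
          show (x - 1) / 2 ∈ (Icc 1 ((a - 1) / 2) : Finset ℕ)
          rw [Finset.mem_Icc]
          constructor
          · omega
          · exact Nat.div_le_div_right (by omega)
        · intro x hx y hy hxy
          have h3 := h x hx
          have h4 := h y hy
          obtain ⟨i, hi⟩ := h3.2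
          obtain ⟨j, hj⟩ := h4.2
          simp only at hxy
          omega
      rw [Finset.card_insert_of_notMem hnot, Nat.card_Icc] at h2
      obtain ⟨i, hi⟩ := ha.2
      omega
    rw [Finset.prod_insert hnot, Finset.card_insert_of_notMem hnot]
    have hk : 2 * (s.card : ℝ) + 3 ≤ a := by exact_mod_cast hcard
    have hk0 : (0 : ℝ) ≤ s.card := by positivity
    have ha2 : (0 : ℝ) < (a : ℝ) - 2 := by linarith
    have h3 : ((a : ℝ) - 1) / ((a : ℝ) - 2) ≤ (2 * (s.card : ℝ) + 2) / (2 * s.card + 1) := by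
      rw [div_le_div_iff₀ ha2 (by positivity)]
      nlinarith
    have h4 : (0 : ℝ) ≤ ((a : ℝ) - 1) / ((a : ℝ) - 2) := by
      apply div_nonneg <;> linarith
    push_cast
    calc ((a : ℝ) - 1) / ((a : ℝ) - 2) * ∏ p ∈ s, (((p : ℝ) - 1) / ((p : ℝ) - 2))
        ≤ ((a : ℝ) - 1) / ((a : ℝ) - 2) * (s.card + 1) := mul_le_mul_of_nonneg_left h1 h4
      _ ≤ (2 * (s.card : ℝ) + 2) / (2 * s.card + 1) * (s.card + 1) :=
          mul_le_mul_of_nonneg_right h3 (by positivity)
      _ ≤ (s.card : ℝ) + 1 + 1 := by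
          rw [div_mul_eq_mul_div, div_le_iff₀ (by positivity)]
          nlinarith

theorem hSSA : StSsa := by
  intro N hN
  unfold SS
  set P := ∏' p : {p : ℕ // p.Prime ∧ 2 < p}, (1 - 1 / ((p : ℝ) - 1) ^ 2) with hP
  set s := N.primeFactors.filter (fun p => 2 < p) with hs
  have h1 := tp_bd
  rw [← hP] at h1
  have hmem : ∀ p ∈ s, 3 ≤ p ∧ Odd p := by
    intro p hp
    rw [hs, Finset.mem_filter, Nat.mem_primeFactors] at hp
    exact ⟨hp.2, hp.1.1.odd_of_ne_two (by omega)⟩
  have h2 : 1 ≤ ∏ p ∈ s, (((p : ℝ) - 1) / ((p : ℝ) - 2)) := by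
    apply Finset.one_le_prod
    intro p hp
    have : (3 : ℝ) ≤ p := by exact_mod_cast (hmem p hp).1
    rw [one_le_div (by linarith)]
    linarith
  have h3 := up_fin s hmem
  have h4 : (s.card : ℝ) ≤ Real.log N := by
    have h5 : 3 ^ s.card ≤ N := by
      calc 3 ^ s.card = ∏ _p ∈ s, 3 := by rw [Finset.prod_const]
        _ ≤ ∏ p ∈ s, p := Finset.prod_le_prod (fun _ _ => by norm_num) fun p hp => (hmem p hp).1
        _ ≤ ∏ p ∈ N.primeFactors, p := by
            apply Finset.prod_le_prod_of_subset_of_one_le' (Finset.filter_subset _ _)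
            intro p hp _
            exact (Nat.prime_of_mem_primeFactors hp).one_le
        _ ≤ N := Nat.le_of_dvd hN (Nat.prod_primeFactors_dvd N)
    have h6 : ((3 : ℝ) ^ s.card) ≤ N := by exact_mod_cast h5
    have h7 : Real.log ((3 : ℝ) ^ s.card) ≤ Real.log N := Real.log_le_log (by positivity) h6
    rw [Real.log_pow] at h7
    have h8 : (1 : ℝ) ≤ Real.log 3 := by
      rw [Real.le_log_iff_exp_le (by norm_num)]
      exact Real.exp_one_lt_d9.le.trans (by norm_num)
    have h9 : (0 : ℝ) ≤ s.card := by positivity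
    nlinarith
  have h5 : (0 : ℝ) ≤ Real.log N := Real.log_natCast_nonneg N
  constructor
  · nlinarith
  · have h6 : ∏ p ∈ s, (((p : ℝ) - 1) / ((p : ℝ) - 2)) ≤ 1 + 2 * Real.log N := by linarith
    calc 2 * P * ∏ p ∈ s, (((p : ℝ) - 1) / ((p : ℝ) - 2))
        ≤ 2 * 1 * ∏ p ∈ s, (((p : ℝ) - 1) / ((p : ℝ) - 2)) := by
          apply mul_le_mul_of_nonneg_right _ (by linarith)
          linarith
      _ ≤ 2 * (1 + 2 * Real.log N) := by linarith

end Pool.Agent.Helper29.GK
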